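import Mathlib

/-!
A continuum in the plane: a sine curve `γ` whose minima are joined by segments (spokes) to a hub `c`.
-/

set_option autoImplicit false

open Set Filter Topology

namespace Pool.Agent.NH80.Kup

/-- the oscillating function, with values in `[1, 2]` -/
noncomputable def h (u : ℝ) : ℝ := (3 - Real.cos u) / 2

theorem one_le_h (u : ℝ) : 1 ≤ h u := by
  unfold h; linarith [Real.cos_le_one u]

theorem h_le_two (u : ℝ) : h u ≤ 2 := by
  unfold h; linarith [Real.neg_one_le_cos u]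

theorem continuous_h : Continuous h := by
  unfold h; fun_prop

theorem h_period (k : ℕ) : h (2 * Real.pi * k) = 1 := by
  unfold h
  rw [show 2 * Real.pi * (k : ℝ) = k * (2 * Real.pi) by ring, Real.cos_nat_mul_two_pi]; norm_num

/-- the curve -/
noncomputable def gam (u : ℝ) : ℝ × ℝ := (h u, h u / (1 + u))

/-- The continuum. -/
def X : Set (ℝ × ℝ) :=
  {p | p.1 ∈ Icc (-1 : ℝ) 2 ∧ p.2 = 0} ∪
  ({p | ∃ k : ℕ, p.1 ∈ Icc (0 : ℝ) 1 ∧ p.2 = p.1 / (1 + 2 * Real.pi * k)} ∪
  {p | ∃ u : ℝ, 0 ≤ u ∧ p = gam u})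

theorem gam_mem {u : ℝ} (hu : 0 ≤ u) : gam u ∈ X := Or.inr (Or.inr ⟨u, hu, rfl⟩)

/-- `(x, s) ↦ (x, s x)` -/
def Phi (p : ℝ × ℝ) : ℝ × ℝ := (p.1, p.2 * p.1)

theorem continuous_Phi : Continuous Phi := by unfold Phi; fun_prop

theorem continuous_mul_h_inv : Continuous fun s : ℝ => s * h (1 / s - 1) := by
  rw [continuous_iff_continuousAt]
  intro s
  by_cases hs : s = 0
  · subst hs
    unfold ContinuousAt
    simp only [zero_mul]
    apply squeeze_zero_norm (a := fun s : ℝ => |s| * 2)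
    · intro s
      rw [Real.norm_eq_abs, abs_mul]
      apply mul_le_mul_of_nonneg_left _ (abs_nonneg _)
      rw [abs_le]
      constructor <;> linarith [one_le_h (1 / s - 1), h_le_two (1 / s - 1)]
    · have : Tendsto (fun s : ℝ => |s| * 2) (𝓝 0) (𝓝 (|0| * 2)) := by
        apply Continuous.tendsto; fun_prop
      simpa using this
  · apply ContinuousAt.mul continuousAt_id
    apply continuous_h.continuousAt.comp
    apply ContinuousAt.sub _ continuousAt_const
    exact ContinuousAt.div continuousAt_const continuousAt_id hs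

/-- part of the `(x, s)`-picture -/
def C0 : Set (ℝ × ℝ) := {p | p.1 ∈ Icc (1 : ℝ) 2 ∧ p.2 ∈ Icc (0 : ℝ) 1 ∧ p.2 * p.1 = p.2 * h (1 / p.2 - 1)}

theorem compact_C0 : IsCompact C0 := by
  have h1 : IsClosed {p : ℝ × ℝ | p.2 * p.1 = p.2 * h (1 / p.2 - 1)} := by
    apply isClosed_eq
    · fun_prop
    · exact continuous_mul_h_inv.comp continuous_snd
  have h2 : C0 = (Icc (1 : ℝ) 2 ×ˢ Icc (0 : ℝ) 1) ∩ {p : ℝ × ℝ | p.2 * p.1 = p.2 * h (1 / p.2 - 1)} := by
    ext p; simp only [C0, mem_ofPred_eq, mem_inter_iff, mem_prod]; tauto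
  rw [h2]
  exact (isCompact_Icc.prod isCompact_Icc).inter_right h1

theorem den_pos (k : ℕ) : 0 < 1 + 2 * Real.pi * (k : ℝ) := by
  have := Real.pi_pos
  positivity

/-- the set of the numbers `1 / (1 + 2 π k)` and `0` -/
def S0 : Set ℝ := insert 0 (range fun k : ℕ => 1 / (1 + 2 * Real.pi * (k : ℝ)))

theorem compact_S0 : IsCompact S0 := by
  apply Tendsto.isCompact_insert_range
  have h1 : Tendsto (fun k : ℕ => 1 + 2 * Real.pi * (k : ℝ)) atTop atTop := by
    apply tendsto_atTop_add_const_left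
    exact Tendsto.const_mul_atTop (by positivity) tendsto_natCast_atTop_atTop
  exact h1.inv_tendsto_atTop.congr (fun k => by simp)

theorem X_eq : X = Phi '' ((Icc (-1 : ℝ) 2) ×ˢ {(0 : ℝ)}) ∪ (Phi '' ((Icc (0 : ℝ) 1) ×ˢ S0) ∪ Phi '' C0) := by
  ext p
  constructor
  · rintro (⟨h1, h2⟩ | ⟨k, h1, h2⟩ | ⟨u, h1, rfl⟩)
    · left
      exact ⟨(p.1, 0), ⟨h1, rfl⟩, by unfold Phi; ext <;> simp [h2]⟩
    · right; left
      refine ⟨(p.1, 1 / (1 + 2 * Real.pi * (k : ℝ))), ⟨h1, Or.inr ⟨k, rfl⟩⟩, ?_⟩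
      unfold Phi
      ext
      · rfl
      · rw [h2]; ring
    · right; right
      refine ⟨(h u, 1 / (1 + u)), ⟨⟨one_le_h u, h_le_two u⟩, ⟨by positivity, ?_⟩, ?_⟩, ?_⟩
      · rw [div_le_one (by positivity)]; linarith
      · show 1 / (1 + u) * h u = 1 / (1 + u) * h (1 / (1 / (1 + u)) - 1)
        congr 2
        rw [one_div_one_div]; ring
      · unfold Phi gam
        ext
        · rfl
        · show 1 / (1 + u) * h u = h u / (1 + u)
          ring
  · rintro (⟨⟨x, s⟩, ⟨h1, h2⟩, rfl⟩ | ⟨⟨x, s⟩, ⟨h1, h2⟩, rfl⟩ | ⟨⟨x, s⟩, ⟨h1, h2, h3⟩, rfl⟩)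
    · left
      simp only [mem_singleton_iff] at h2
      subst h2
      exact ⟨h1, by simp [Phi]⟩
    · simp only at h1 h2
      rcases h2 with rfl | ⟨k, rfl⟩
      · left
        refine ⟨⟨?_, ?_⟩, by simp [Phi]⟩
        · show -1 ≤ x
          linarith [h1.1]
        · show x ≤ 2
          linarith [h1.2]
      · right; left
        refine ⟨k, h1, ?_⟩
        show 1 / (1 + 2 * Real.pi * (k : ℝ)) * x = x / (1 + 2 * Real.pi * (k : ℝ))
        ring
    · simp only at h1 h2 h3
      by_cases hs : s = 0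
      · subst hs
        left
        refine ⟨⟨?_, ?_⟩, by simp [Phi]⟩
        · show -1 ≤ x
          linarith [h1.1]
        · show x ≤ 2
          linarith [h1.2]
      · right; right
        have hx : x = h (1 / s - 1) := mul_left_cancel₀ hs h3
        have hs0 : 0 < s := lt_of_le_of_ne h2.1 (Ne.symm hs)
        refine ⟨1 / s - 1, ?_, ?_⟩
        · have : 1 ≤ 1 / s := by rw [le_div_iff₀ hs0]; linarith [h2.2]
          linarith
        · unfold Phi gam
          ext
          · exact hx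
          · show s * x = h (1 / s - 1) / (1 + (1 / s - 1))
            rw [← hx]
            field_simp
            ring

theorem compact_X : IsCompact X := by
  rw [X_eq]
  exact ((isCompact_Icc.prod isCompact_singleton).image continuous_Phi).union
    (((isCompact_Icc.prod compact_S0).image continuous_Phi).union (compact_C0.image continuous_Phi))

/-! ### Separation -/

theorem eq_hub {p : ℝ × ℝ} (hp : p ∈ X) (h0 : p.1 = 0) : p = (0, 0) := by
  rcases hp with ⟨_, h2⟩ | ⟨k, _, h2⟩ | ⟨u, _, rfl⟩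
  · ext
    · exact h0
    · exact h2
  · ext
    · exact h0
    · rw [h2, h0]; simp
  · exfalso
    have := one_le_h u
    have h1 : h u = 0 := h0
    linarith

theorem eq_gam {p : ℝ × ℝ} (hp : p ∈ X) (h0 : 0 < p.1) {u : ℝ} (hu : 0 ≤ u)
    (hk : ∀ k : ℕ, u ≠ 2 * Real.pi * k) (hr : p.2 / p.1 = 1 / (1 + u)) : p = gam u := by
  have hpos : (0 : ℝ) < 1 + u := by linarith
  rcases hp with ⟨_, h2⟩ | ⟨k, _, h2⟩ | ⟨v, hv, rfl⟩
  · exfalso
    rw [h2] at hr
    have : (0 : ℝ) < 1 / (1 + u) := by positivity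
    rw [← hr] at this
    simp at this
  · exfalso
    rw [h2] at hr
    have hd := den_pos k
    have h3 : 1 / (1 + 2 * Real.pi * (k : ℝ)) = 1 / (1 + u) := by
      rw [← hr]; field_simp
    have h4 : 1 + 2 * Real.pi * (k : ℝ) = 1 + u := by
      have := congrArg (fun t => 1 / t) h3
      simpa using this
    exact hk k (by linarith)
  · have h5 : (h v / (1 + v)) / h v = 1 / (1 + u) := hr
    have hv1 : 0 < h v := by linarith [one_le_h v]
    have h6 : 1 / (1 + v) = 1 / (1 + u) := by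
      rw [← h5]; field_simp
    have h7 : 1 + v = 1 + u := by
      have := congrArg (fun t => 1 / t) h6
      simpa using this
    have : v = u := by linarith
    rw [this]

/-! ### Lipschitz paths -/

theorem gam_lip {u v : ℝ} (hu : 0 ≤ u) (hv : 0 ≤ v) : dist (gam u) (gam v) ≤ 3 * |u - v| := by
  have h1 : |h u - h v| ≤ |u - v| / 2 := by
    have e : h u - h v = -((Real.cos u - Real.cos v) / 2) := by unfold h; ring
    rw [e, abs_neg, abs_div, abs_two]
    have := Real.abs_cos_sub_cos_le u v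
    linarith
  rw [Prod.dist_eq]
  apply max_le
  · show dist (h u) (h v) ≤ _
    rw [Real.dist_eq]
    linarith [abs_nonneg (u - v)]
  · show dist (h u / (1 + u)) (h v / (1 + v)) ≤ _
    rw [Real.dist_eq]
    have hu1 : 0 < 1 + u := by linarith
    have hv1 : 0 < 1 + v := by linarith
    have e : h u / (1 + u) - h v / (1 + v) =
        (h u - h v) / (1 + u) + h v * (v - u) / ((1 + u) * (1 + v)) := by
      field_simp
      ring
    rw [e]
    refine (abs_add_le _ _).trans ?_
    rw [abs_div, abs_div, abs_mul, abs_of_pos hu1, abs_of_pos (mul_pos hu1 hv1)]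
    have h2 : |h u - h v| / (1 + u) ≤ |u - v| / 2 := by
      refine (div_le_self (abs_nonneg _) (by linarith)).trans h1
    have h3 : |h v| * |v - u| / ((1 + u) * (1 + v)) ≤ 2 * |u - v| := by
      refine (div_le_self (by positivity) (by nlinarith)).trans ?_
      rw [abs_sub_comm v u]
      apply mul_le_mul_of_nonneg_right _ (abs_nonneg _)
      rw [abs_le]
      constructor <;> linarith [one_le_h v, h_le_two v]
    linarith [abs_nonneg (u - v)]

instance : CompactSpace X := isCompact_iff_compactSpace.1 compact_X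

/-- the hub -/
def c : X := ⟨(0, 0), Or.inl ⟨by norm_num, rfl⟩⟩

/-- `x` and `y` are joined by a path with Lipschitz constant `L`. -/
def J (L : ℝ) (x y : X) : Prop := ∃ p : Path x y, ∀ s t, dist (p s) (p t) ≤ L * dist s t

theorem J.symm {L : ℝ} {x y : X} (hxy : J L x y) : J L y x := by
  obtain ⟨p, hp⟩ := hxy
  refine ⟨p.symm, fun s t => ?_⟩
  have := hp (unitInterval.symm s) (unitInterval.symm t)
  simp only [Path.symm_apply]
  refine this.trans (le_of_eq ?_)
  congr 1
  rw [Subtype.dist_eq, Subtype.dist_eq, Real.dist_eq, Real.dist_eq, unitInterval.coe_symm_eq,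
    unitInterval.coe_symm_eq]
  rw [abs_sub_comm]
  congr 1
  ring

theorem trans_lip {L : ℝ} {x y z : X} (p : Path x y) (q : Path y z)
    (hp : ∀ s t, dist (p s) (p t) ≤ L * dist s t) (hq : ∀ s t, dist (q s) (q t) ≤ L * dist s t) :
    ∀ s t, dist ((p.trans q) s) ((p.trans q) t) ≤ 2 * L * dist s t := by
  -- it is enough to treat `s ≤ t`
  have key : ∀ s t : unitInterval, s ≤ t →
      dist ((p.trans q) s) ((p.trans q) t) ≤ 2 * L * dist s t := by
    intro s t hst
    have hst' : (s : ℝ) ≤ t := hst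
    have hd : dist s t = (t : ℝ) - s := by
      rw [Subtype.dist_eq, Real.dist_eq, abs_sub_comm, abs_of_nonneg (by linarith)]
    rw [Path.trans_apply, Path.trans_apply, hd]
    split_ifs with h1 h2 h2
    · refine (hp _ _).trans ?_
      rw [Subtype.dist_eq, Real.dist_eq]
      show L * |2 * (s : ℝ) - 2 * (t : ℝ)| ≤ _
      rw [abs_sub_comm, abs_of_nonneg (by linarith)]
      linarith
    · refine (dist_triangle _ y _).trans ?_
      have e1 : dist (p ⟨2 * (s : ℝ), (unitInterval.mul_pos_mem_iff zero_lt_two).2 ⟨s.2.1, h1⟩⟩) y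
          ≤ L * (1 - 2 * s) := by
        have := hp ⟨2 * (s : ℝ), (unitInterval.mul_pos_mem_iff zero_lt_two).2 ⟨s.2.1, h1⟩⟩ 1
        rw [p.target] at this
        refine this.trans (le_of_eq ?_)
        rw [Subtype.dist_eq, Real.dist_eq]
        show L * |2 * (s : ℝ) - 1| = _
        rw [abs_sub_comm, abs_of_nonneg (by linarith)]
      have e2 : dist y (q ⟨2 * (t : ℝ) - 1, unitInterval.two_mul_sub_one_mem_iff.2 ⟨(not_le.1 h2).le, t.2.2⟩⟩)
          ≤ L * (2 * t - 1) := by
        have := hq 0 ⟨2 * (t : ℝ) - 1, unitInterval.two_mul_sub_one_mem_iff.2 ⟨(not_le.1 h2).le, t.2.2⟩⟩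
        rw [q.source] at this
        refine this.trans (le_of_eq ?_)
        rw [Subtype.dist_eq, Real.dist_eq]
        show L * |0 - (2 * (t : ℝ) - 1)| = _
        push Not at h2
        rw [zero_sub, abs_neg, abs_of_nonneg (by linarith)]
      linarith
    · exact absurd (le_trans hst' h2) h1
    · refine (hq _ _).trans ?_
      rw [Subtype.dist_eq, Real.dist_eq]
      show L * |2 * (s : ℝ) - 1 - (2 * (t : ℝ) - 1)| ≤ _
      rw [abs_sub_comm, abs_of_nonneg (by linarith)]
      linarith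
  intro s t
  rcases le_total s t with hst | hst
  · exact key s t hst
  · rw [dist_comm, dist_comm s t]
    exact key t s hst

theorem J.mono {L L' : ℝ} (hLL : L ≤ L') {x y : X} (hxy : J L x y) : J L' x y := by
  obtain ⟨p, hp⟩ := hxy
  exact ⟨p, fun s t => (hp s t).trans (mul_le_mul_of_nonneg_right hLL dist_nonneg)⟩

theorem J.trans {L : ℝ} {x y z : X} (hxy : J L x y) (hyz : J L y z) :
    J (2 * L) x z := by
  obtain ⟨p, hp⟩ := hxy
  obtain ⟨q, hq⟩ := hyz
  exact ⟨p.trans q, trans_lip p q hp hq⟩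

/-- Straight segments to the hub. -/
theorem J_segment (x y : ℝ) (hx : |x| ≤ 2) (hy : |y| ≤ 2)
    (hmem : ∀ t ∈ Icc (0 : ℝ) 1, (t * x, t * y) ∈ X) (w : X) (hw : (w : ℝ × ℝ) = (x, y)) :
    J 2 w c := by
  have hcont : Continuous fun t : unitInterval => (((1 - (t : ℝ)) * x, (1 - (t : ℝ)) * y) : ℝ × ℝ) := by
    fun_prop
  refine ⟨⟨⟨fun t => ⟨((1 - (t : ℝ)) * x, (1 - (t : ℝ)) * y), hmem _ ?_⟩, ?_⟩, ?_, ?_⟩, ?_⟩
  · exact ⟨by linarith [t.2.2], by linarith [t.2.1]⟩
  · exact hcont.subtype_mk _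
  · apply Subtype.ext
    rw [hw]; simp
  · apply Subtype.ext
    simp [c]
  · intro s t
    rw [Subtype.dist_eq, Subtype.dist_eq s t]
    show dist ((((1 - (s : ℝ)) * x, (1 - (s : ℝ)) * y) : ℝ × ℝ)) ((1 - (t : ℝ)) * x, (1 - (t : ℝ)) * y) ≤ _
    rw [Prod.dist_eq]
    have e : ∀ z : ℝ, |z| ≤ 2 → dist ((1 - (s : ℝ)) * z) ((1 - (t : ℝ)) * z) ≤ 2 * dist (s : ℝ) t := by
      intro z hz
      rw [Real.dist_eq, Real.dist_eq, show (1 - (s : ℝ)) * z - (1 - (t : ℝ)) * z = z * -((s : ℝ) - t) by ring,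
        abs_mul, abs_neg]
      exact mul_le_mul_of_nonneg_right hz (abs_nonneg _)
    exact max_le (e x hx) (e y hy)

theorem J_gam {u v : ℝ} (hu : 0 ≤ u) (hv : 0 ≤ v) (huv : |v - u| ≤ 7) :
    J 21 ⟨gam u, gam_mem hu⟩ ⟨gam v, gam_mem hv⟩ := by
  have hpos : ∀ t : unitInterval, 0 ≤ u + (t : ℝ) * (v - u) := by
    intro t
    have h1 := t.2.1
    have h2 := t.2.2
    nlinarith
  have hc : Continuous fun t : unitInterval => gam (u + (t : ℝ) * (v - u)) := by
    have h1 : Continuous fun t : unitInterval => u + (t : ℝ) * (v - u) := by fun_prop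
    unfold gam
    refine (continuous_h.comp h1).prodMk ?_
    exact (continuous_h.comp h1).div (by fun_prop) (fun t => by linarith [hpos t])
  refine ⟨⟨⟨fun t => ⟨gam (u + (t : ℝ) * (v - u)), gam_mem (hpos t)⟩, hc.subtype_mk _⟩, ?_, ?_⟩, ?_⟩
  · apply Subtype.ext; simp
  · apply Subtype.ext; simp
  · intro s t
    rw [Subtype.dist_eq, Subtype.dist_eq s t]
    show dist (gam (u + (s : ℝ) * (v - u))) (gam (u + (t : ℝ) * (v - u))) ≤ _
    refine (gam_lip (hpos s) (hpos t)).trans ?_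
    rw [Real.dist_eq, show u + (s : ℝ) * (v - u) - (u + (t : ℝ) * (v - u)) = (v - u) * ((s : ℝ) - t) by ring,
      abs_mul]
    have := abs_nonneg ((s : ℝ) - t)
    nlinarith

theorem J_hub (w : X) : J 42 w c := by
  obtain ⟨⟨x, y⟩, hw⟩ := w
  rcases id hw with ⟨h1, h2⟩ | ⟨k, h1, h2⟩ | ⟨u, hu, h2⟩
  · simp only at h1 h2
    subst h2
    refine (J_segment x 0 ?_ (by norm_num) ?_ _ rfl).mono (by norm_num)
    · rw [abs_le]; exact ⟨by linarith [h1.1], h1.2⟩
    · intro t ht
      left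
      refine ⟨⟨?_, ?_⟩, by simp⟩
      · show -1 ≤ t * x
        nlinarith [h1.1, h1.2, ht.1, ht.2]
      · show t * x ≤ 2
        nlinarith [h1.1, h1.2, ht.1, ht.2]
  · simp only at h1 h2
    have hd := den_pos k
    have hd1 : 1 ≤ 1 + 2 * Real.pi * (k : ℝ) := by
      have := Real.pi_pos
      have : 0 ≤ 2 * Real.pi * (k : ℝ) := by positivity
      linarith
    have hy : y ≤ 1 := by
      rw [h2, div_le_one hd]; linarith [h1.2]
    have hy0 : 0 ≤ y := by
      rw [h2]; exact div_nonneg h1.1 hd.le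
    refine (J_segment x y ?_ ?_ ?_ _ rfl).mono (by norm_num)
    · rw [abs_le]; exact ⟨by linarith [h1.1], by linarith [h1.2]⟩
    · rw [abs_le]; exact ⟨by linarith, by linarith⟩
    · intro t ht
      right; left
      refine ⟨k, ⟨mul_nonneg ht.1 h1.1, ?_⟩, ?_⟩
      · show t * x ≤ 1
        nlinarith [h1.1, h1.2, ht.1, ht.2]
      · show t * y = t * x / (1 + 2 * Real.pi * (k : ℝ))
        rw [h2]; ring
  · -- go to the next minimum, then along the spoke
    have hpi := Real.pi_pos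
    set k := ⌈u / (2 * Real.pi)⌉₊ with hk
    have hk1 : u / (2 * Real.pi) ≤ k := Nat.le_ceil _
    have hk2 : (k : ℝ) < u / (2 * Real.pi) + 1 := Nat.ceil_lt_add_one (by positivity)
    have hk3 : u ≤ 2 * Real.pi * k := by
      rw [div_le_iff₀ (by positivity)] at hk1; linarith
    have hk4 : 2 * Real.pi * k < u + 2 * Real.pi := by
      have := mul_lt_mul_of_pos_left hk2 (show 0 < 2 * Real.pi by positivity)
      rw [mul_add, mul_one, mul_div_cancel₀ _ (by positivity)] at this
      exact this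
    have hpos : 0 ≤ 2 * Real.pi * (k : ℝ) := by positivity
    have hlt : |2 * Real.pi * (k : ℝ) - u| ≤ 7 := by
      rw [abs_le]
      constructor
      · linarith
      · linarith [Real.pi_lt_d2]
    have j1 := J_gam hu hpos hlt
    have hd := den_pos k
    have hd1 : 1 ≤ 1 + 2 * Real.pi * (k : ℝ) := by linarith
    have j2 : J 2 ⟨gam (2 * Real.pi * (k : ℝ)), gam_mem hpos⟩ c := by
      apply J_segment 1 (1 / (1 + 2 * Real.pi * (k : ℝ))) (by norm_num)
      · rw [abs_le]
        have : 1 / (1 + 2 * Real.pi * (k : ℝ)) ≤ 1 := by rw [div_le_one hd]; exact hd1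
        have : 0 < 1 / (1 + 2 * Real.pi * (k : ℝ)) := by positivity
        constructor <;> linarith
      · intro t ht
        right; left
        refine ⟨k, ⟨?_, ?_⟩, ?_⟩
        · show 0 ≤ t * 1
          linarith [ht.1]
        · show t * 1 ≤ 1
          linarith [ht.2]
        · show t * (1 / (1 + 2 * Real.pi * (k : ℝ))) = t * 1 / (1 + 2 * Real.pi * (k : ℝ))
          ring
      · show gam (2 * Real.pi * (k : ℝ)) = _
        unfold gam
        rw [h_period]
    have j3 := J.trans j1 (j2.mono (by norm_num))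
    have e : (⟨(x, y), hw⟩ : X) = ⟨gam u, gam_mem hu⟩ := Subtype.ext h2
    rw [e]
    convert j3 using 1
    norm_num

instance : ConnectedSpace X := by
  have : PathConnectedSpace X := by
    refine ⟨⟨c⟩, fun x y => ?_⟩
    obtain ⟨p, -⟩ := J_hub x
    obtain ⟨q, -⟩ := J_hub y
    exact ⟨p.trans q.symm⟩
  infer_instance

/-- Lipschitz paths can be cut into pieces. -/
theorem cut {x y : X} {L : ℝ} (hL : 0 ≤ L) (p : Path x y)
    (hp : ∀ s t, dist (p s) (p t) ≤ L * dist s t) {ε : ℝ} (n : ℕ) (hn : 0 < n) (hε : L / n ≤ ε) :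
    ∃ t : Fin (n + 1) → unitInterval, t 0 = 0 ∧ t (Fin.last n) = 1 ∧ StrictMono t ∧
      ∀ i : Fin n, Metric.diam (⇑p '' Set.Icc (t i.castSucc) (t i.succ)) ≤ ε := by
  have hn' : (0 : ℝ) < n := by exact_mod_cast hn
  refine ⟨fun i => ⟨(i : ℝ) / n, by positivity, ?_⟩, ?_, ?_, ?_, ?_⟩
  · rw [div_le_one hn']
    have := i.2
    exact_mod_cast Nat.lt_succ_iff.1 this
  · apply Subtype.ext; simp
  · apply Subtype.ext
    simp only [Fin.val_last]
    rw [div_self hn'.ne']; rfl
  · intro i j hij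
    show (i : ℝ) / n < (j : ℝ) / n
    have : (i : ℝ) < j := by exact_mod_cast hij
    exact div_lt_div_of_pos_right this hn'
  · intro i
    refine le_trans ?_ hε
    apply Metric.diam_le_of_forall_dist_le (by positivity)
    rintro _ ⟨s, hs, rfl⟩ _ ⟨t, ht, rfl⟩
    refine (hp s t).trans ?_
    rw [div_eq_mul_one_div]
    apply mul_le_mul_of_nonneg_left _ hL
    rw [Subtype.dist_eq, Real.dist_eq]
    have a1 : (i : ℝ) / n ≤ s := hs.1
    have a2 : (s : ℝ) ≤ ((i : ℝ) + 1) / n := by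
      have := hs.2
      have h3 : (s : ℝ) ≤ ((i.succ : Fin (n + 1)) : ℝ) / n := this
      simpa using h3
    have b1 : (i : ℝ) / n ≤ t := ht.1
    have b2 : (t : ℝ) ≤ ((i : ℝ) + 1) / n := by
      have := ht.2
      have h3 : (t : ℝ) ≤ ((i.succ : Fin (n + 1)) : ℝ) / n := this
      simpa using h3
    rw [add_div] at a2 b2
    rw [abs_le]
    constructor <;> linarith

/-- `X` is uniformly pathwise connected. -/
theorem upc (a b : X) : ∃ P : Set (Path a b),
    (∀ ε : ℝ, ε > 0 → ∃ n : ℕ, ∀ p ∈ P, ∃ t : Fin (n + 1) → unitInterval,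
        t 0 = 0 ∧ t (Fin.last n) = 1 ∧ StrictMono t ∧
        ∀ i : Fin n, Metric.diam (⇑p '' Set.Icc (t i.castSucc) (t i.succ)) ≤ ε) ∧
    (⋃ p ∈ P, Set.range ⇑p) = Set.univ := by
  refine ⟨{p | ∀ s t, dist (p s) (p t) ≤ 168 * dist s t}, ?_, ?_⟩
  · intro ε hε
    refine ⟨⌈168 / ε⌉₊ + 1, fun p hp => cut (by norm_num) p hp _ (Nat.succ_pos _) ?_⟩
    have h1 : 168 / ε ≤ ⌈168 / ε⌉₊ := Nat.le_ceil _
    rw [div_le_iff₀ (by positivity)]
    rw [div_le_iff₀ hε] at h1
    push_cast
    nlinarith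
  · rw [eq_univ_iff_forall]
    intro w
    obtain ⟨p1, h1⟩ := J_hub a
    obtain ⟨p2, h2⟩ := (J_hub w).symm
    obtain ⟨p3, h3⟩ := J_hub w
    obtain ⟨p4, h4⟩ := (J_hub b).symm
    have k1 := trans_lip p1 p2 h1 h2
    have k2 := trans_lip p3 p4 h3 h4
    have k3 := trans_lip (p1.trans p2) (p3.trans p4) k1 k2
    simp only [mem_iUnion]
    refine ⟨(p1.trans p2).trans (p3.trans p4), ?_, ?_⟩
    · intro s t
      refine (k3 s t).trans (le_of_eq ?_)
      ring
    · rw [Path.trans_range]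
      left
      exact ⟨1, Path.target _⟩

end Pool.Agent.NH80.Kup
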