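import Pool.Agent.NH80.Kup

/-!
The continuum `X` is not uniformly arcwise connected.
-/

set_option autoImplicit false

open Set Filter Topology

namespace Pool.Agent.NH80.Kup

/-- the end point of the curve -/
noncomputable def pa : X := ⟨gam 0, gam_mem le_rfl⟩

/-- the end of the handle -/
def pb : X := ⟨(-1, 0), Or.inl ⟨by norm_num, rfl⟩⟩

/-! ### A long arc from `a` to `b` -/

/-- first coordinate of the long arc -/
noncomputable def QX (T v : ℝ) : ℝ := h (min v T) - max (v - T) 0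

/-- The long arc. -/
noncomputable def Q (T v : ℝ) : ℝ × ℝ := (QX T v, max (QX T v) 0 / (1 + min v T))

theorem Q_of_le {T v : ℝ} (hv : v ≤ T) : Q T v = gam v := by
  unfold Q QX gam
  rw [min_eq_left hv, max_eq_right (by linarith : v - T ≤ 0), sub_zero,
    max_eq_left (by linarith [one_le_h v])]

theorem QX_of_ge {T v : ℝ} (hT : h T = 1) (hv : T ≤ v) : QX T v = 1 - (v - T) := by
  unfold QX
  rw [min_eq_right hv, max_eq_left (by linarith : 0 ≤ v - T), hT]

theorem continuous_Q {T : ℝ} (hT : 0 ≤ T) :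
    Continuous fun t : unitInterval => Q T ((t : ℝ) * (T + 2)) := by
  have h1 : Continuous fun t : unitInterval => (t : ℝ) * (T + 2) := by fun_prop
  have h2 : Continuous fun t : unitInterval => min ((t : ℝ) * (T + 2)) T := h1.min continuous_const
  have h3 : Continuous fun t : unitInterval => QX T ((t : ℝ) * (T + 2)) :=
    (continuous_h.comp h2).sub ((h1.sub continuous_const).max continuous_const)
  unfold Q
  refine h3.prodMk ((h3.max continuous_const).div (continuous_const.add h2) ?_)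
  intro t
  have : 0 ≤ min ((t : ℝ) * (T + 2)) T := le_min (mul_nonneg t.2.1 (by linarith)) hT
  linarith

theorem Q_mem (k : ℕ) {v : ℝ} (h0 : 0 ≤ v) (h1 : v ≤ 2 * Real.pi * k + 2) :
    Q (2 * Real.pi * k) v ∈ X := by
  rcases le_total v (2 * Real.pi * k) with hv | hv
  · rw [Q_of_le hv]; exact gam_mem h0
  · have e := QX_of_ge (h_period k) hv
    rcases le_total 0 (QX (2 * Real.pi * k) v) with hp | hp
    · right; left
      refine ⟨k, ⟨hp, ?_⟩, ?_⟩
      · show QX (2 * Real.pi * k) v ≤ 1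
        rw [e]; linarith
      · show max (QX (2 * Real.pi * k) v) 0 / (1 + min v (2 * Real.pi * k)) =
          QX (2 * Real.pi * k) v / (1 + 2 * Real.pi * k)
        rw [max_eq_left hp, min_eq_right hv]
    · left
      refine ⟨⟨?_, ?_⟩, ?_⟩
      · show -1 ≤ QX (2 * Real.pi * k) v
        rw [e]; linarith
      · show QX (2 * Real.pi * k) v ≤ 2
        linarith
      · show max (QX (2 * Real.pi * k) v) 0 / (1 + min v (2 * Real.pi * k)) = 0
        rw [max_eq_right hp, zero_div]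

theorem gam_inj {u v : ℝ} (hu : 0 ≤ u) (hv : 0 ≤ v) (huv : gam u = gam v) : u = v := by
  have e1 : h u = h v := congrArg Prod.fst huv
  have e2 : h u / (1 + u) = h v / (1 + v) := congrArg Prod.snd huv
  have hv1 : 0 < h v := by linarith [one_le_h v]
  rw [e1, div_eq_div_iff (by linarith) (by linarith)] at e2
  have := mul_left_cancel₀ hv1.ne' e2
  linarith

theorem Q_inj (k : ℕ) {v w : ℝ} (h0 : 0 ≤ v) (hw0 : 0 ≤ w)
    (e : Q (2 * Real.pi * k) v = Q (2 * Real.pi * k) w) : v = w := by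
  have eX : QX (2 * Real.pi * k) v = QX (2 * Real.pi * k) w := congrArg Prod.fst e
  rcases le_total v (2 * Real.pi * k) with hv | hv <;>
    rcases le_total w (2 * Real.pi * k) with hw | hw
  · rw [Q_of_le hv, Q_of_le hw] at e
    exact gam_inj h0 hw0 e
  · have e1 : QX (2 * Real.pi * k) v = h v := congrArg Prod.fst (Q_of_le hv)
    rw [e1, QX_of_ge (h_period k) hw] at eX
    have h3 := one_le_h v
    have h4 : w = 2 * Real.pi * k := by linarith
    rw [Q_of_le hv, Q_of_le h4.le] at e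
    exact gam_inj h0 hw0 e
  · have e1 : QX (2 * Real.pi * k) w = h w := congrArg Prod.fst (Q_of_le hw)
    rw [e1, QX_of_ge (h_period k) hv] at eX
    have h3 := one_le_h w
    have h4 : v = 2 * Real.pi * k := by linarith
    rw [Q_of_le hw, Q_of_le h4.le] at e
    exact gam_inj h0 hw0 e
  · rw [QX_of_ge (h_period k) hv, QX_of_ge (h_period k) hw] at eX
    linarith

theorem exists_arc (k : ℕ) : ∃ q : Path pa pb, Function.Injective q ∧
    ∀ u : ℝ, ∀ hu : 0 ≤ u, u ≤ 2 * Real.pi * k → (⟨gam u, gam_mem hu⟩ : X) ∈ range q := by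
  have hT : 0 ≤ 2 * Real.pi * (k : ℝ) := by have := Real.pi_pos; positivity
  have hm : ∀ t : unitInterval, Q (2 * Real.pi * k) ((t : ℝ) * (2 * Real.pi * k + 2)) ∈ X := by
    intro t
    apply Q_mem k
    · exact mul_nonneg t.2.1 (by linarith)
    · have := t.2.2
      nlinarith
  refine ⟨⟨⟨fun t => ⟨_, hm t⟩, (continuous_Q hT).subtype_mk _⟩, ?_, ?_⟩, ?_, ?_⟩
  · apply Subtype.ext
    show Q (2 * Real.pi * k) (((0 : unitInterval) : ℝ) * (2 * Real.pi * k + 2)) = gam 0
    rw [show (((0 : unitInterval) : ℝ) * (2 * Real.pi * k + 2)) = 0 by simp]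
    exact Q_of_le hT
  · apply Subtype.ext
    show Q (2 * Real.pi * k) (((1 : unitInterval) : ℝ) * (2 * Real.pi * k + 2)) = (-1, 0)
    rw [show (((1 : unitInterval) : ℝ) * (2 * Real.pi * k + 2)) = 2 * Real.pi * k + 2 by simp]
    have e := QX_of_ge (h_period k) (show 2 * Real.pi * (k : ℝ) ≤ 2 * Real.pi * k + 2 by linarith)
    have e' : QX (2 * Real.pi * k) (2 * Real.pi * k + 2) = -1 := by rw [e]; ring
    unfold Q
    rw [e']
    simp
  · intro s t hst
    have h1 : Q (2 * Real.pi * k) ((s : ℝ) * (2 * Real.pi * k + 2)) =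
        Q (2 * Real.pi * k) ((t : ℝ) * (2 * Real.pi * k + 2)) := congrArg Subtype.val hst
    have h2 := Q_inj k (mul_nonneg s.2.1 (by linarith)) (mul_nonneg t.2.1 (by linarith)) h1
    apply Subtype.ext
    exact mul_right_cancel₀ (by linarith : (2 * Real.pi * (k : ℝ) + 2) ≠ 0) h2
  · intro u hu huk
    have hd : 0 < 2 * Real.pi * (k : ℝ) + 2 := by linarith
    refine ⟨⟨u / (2 * Real.pi * k + 2), by positivity, ?_⟩, ?_⟩
    · rw [div_le_one hd]; linarith
    · apply Subtype.ext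
      show Q (2 * Real.pi * k) (u / (2 * Real.pi * k + 2) * (2 * Real.pi * k + 2)) = gam u
      rw [div_mul_cancel₀ _ hd.ne']
      exact Q_of_le huk

/-! ### All arcs through a far point of the curve are long -/

/-- A connected subset of `X` to the right of the hub which contains two points of the curve
contains the piece of the curve between them (up to the end points of the spokes). -/
theorem between {S : Set X} (hS : IsPreconnected S) (hpos : ∀ x ∈ S, 0 < (x : ℝ × ℝ).1)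
    {u v w : ℝ} (hu : 0 ≤ u) (huw : u ≤ w) (hwv : w ≤ v) (hk : ∀ k : ℕ, w ≠ 2 * Real.pi * k)
    (h1 : (⟨gam u, gam_mem hu⟩ : X) ∈ S) (h2 : (⟨gam v, gam_mem (hu.trans (huw.trans hwv))⟩ : X) ∈ S) :
    (⟨gam w, gam_mem (hu.trans huw)⟩ : X) ∈ S := by
  have hcont : ContinuousOn (fun x : X => (x : ℝ × ℝ).2 / (x : ℝ × ℝ).1) S := by
    apply ContinuousOn.div
    · fun_prop
    · fun_prop
    · intro x hx; exact (hpos x hx).ne'
  have hr : ∀ z : ℝ, 0 ≤ z → (gam z).2 / (gam z).1 = 1 / (1 + z) := by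
    intro z hz
    show h z / (1 + z) / h z = _
    have : 0 < h z := by linarith [one_le_h z]
    field_simp
  have h3 := hS.intermediate_value h2 h1 hcont
  have h4 : 1 / (1 + w) ∈ Icc ((gam v).2 / (gam v).1) ((gam u).2 / (gam u).1) := by
    rw [hr v (hu.trans (huw.trans hwv)), hr u hu]
    constructor
    · exact one_div_le_one_div_of_le (by linarith) (by linarith)
    · exact one_div_le_one_div_of_le (by linarith) (by linarith)
  obtain ⟨x, hx, hx2⟩ := h3 h4
  have e := eq_gam x.2 (hpos x hx) (hu.trans huw) hk hx2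
  have e' : x = ⟨gam w, gam_mem (hu.trans huw)⟩ := Subtype.ext e
  rw [← e']
  exact hx

theorem not_uac (P : Set (Path pa pb)) (h1 : ∀ p ∈ P, Function.Injective ⇑p)
    (h2 : ∀ ε : ℝ, ε > 0 → ∃ n : ℕ, ∀ p ∈ P, ∃ t : Fin (n + 1) → unitInterval,
              t 0 = 0 ∧ t (Fin.last n) = 1 ∧ StrictMono t ∧
              ∀ i : Fin n, Metric.diam (⇑p '' Set.Icc (t i.castSucc) (t i.succ)) ≤ ε)
    (h3 : (⋃ p ∈ P, Set.range ⇑p) =
            ⋃ (q : Path pa pb) (_ : Function.Injective ⇑q), Set.range ⇑q) : False := by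
  obtain ⟨n, hn⟩ := h2 (1 / 2) (by norm_num)
  have hpi := Real.pi_pos
  have hz0 : 0 ≤ (2 * (n : ℝ) + 1) * Real.pi := by positivity
  -- the far point is covered by an arc of the family
  have hmem : (⟨gam ((2 * (n : ℝ) + 1) * Real.pi), gam_mem hz0⟩ : X) ∈ ⋃ p ∈ P, Set.range ⇑p := by
    rw [h3]
    obtain ⟨q, hq, hq2⟩ := exists_arc (n + 1)
    simp only [mem_iUnion]
    refine ⟨q, hq, hq2 _ hz0 ?_⟩
    push_cast
    nlinarith
  simp only [mem_iUnion] at hmem
  obtain ⟨p, hp, τ, hτ⟩ := hmem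
  have hinj := h1 p hp
  obtain ⟨t, ht0, ht1, htm, htd⟩ := hn p hp
  have hfst : Continuous fun s : unitInterval => ((p s : X) : ℝ × ℝ).1 := by
    exact continuous_fst.comp (continuous_subtype_val.comp p.continuous)
  -- after `τ` the arc passes through the hub
  have hpos_tau : 0 < ((p τ : X) : ℝ × ℝ).1 := by
    rw [hτ]
    show 0 < h _
    linarith [one_le_h ((2 * (n : ℝ) + 1) * Real.pi)]
  obtain ⟨σ, hσ, hσ0⟩ : ∃ σ ∈ Icc τ 1, ((p σ : X) : ℝ × ℝ).1 = 0 := by
    have h5 := (isPreconnected_Icc (a := τ) (b := (1 : unitInterval))).intermediate_value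
      (right_mem_Icc.2 τ.2.2) (left_mem_Icc.2 τ.2.2) hfst.continuousOn
    have h6 : (0 : ℝ) ∈ Icc (((p 1 : X) : ℝ × ℝ).1) (((p τ : X) : ℝ × ℝ).1) := by
      refine ⟨?_, hpos_tau.le⟩
      rw [p.target]
      show (-1 : ℝ) ≤ 0
      norm_num
    obtain ⟨σ, hσ, hσ2⟩ := h5 h6
    exact ⟨σ, hσ, hσ2⟩
  have hστ : τ < σ := by
    refine lt_of_le_of_ne hσ.1 ?_
    rintro rfl
    rw [hσ0] at hpos_tau
    exact lt_irrefl _ hpos_tau
  have hpos : ∀ s ∈ Icc (0 : unitInterval) τ, 0 < ((p s : X) : ℝ × ℝ).1 := by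
    intro s hs
    by_contra hneg
    push Not at hneg
    have h5 := (isPreconnected_Icc (a := s) (b := τ)).intermediate_value
      (left_mem_Icc.2 hs.2) (right_mem_Icc.2 hs.2) hfst.continuousOn
    obtain ⟨r, hr, hr2⟩ := h5 ⟨hneg, hpos_tau.le⟩
    have e1 : p r = c := Subtype.ext (eq_hub (p r).2 hr2)
    have e2 : p σ = c := Subtype.ext (eq_hub (p σ).2 hσ0)
    have e3 : r = σ := hinj (e1.trans e2.symm)
    rw [e3] at hr
    exact absurd hr.2 (not_le.2 hστ)
  -- the arc passes through the maxima before `τ`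
  have hodd : ∀ (j k : ℕ), (2 * (j : ℝ) + 1) * Real.pi ≠ 2 * Real.pi * k := by
    intro j k he
    have h6 : (2 * (j : ℝ) + 1) = 2 * k := by
      apply mul_right_cancel₀ hpi.ne'
      linarith
    have h7 : 2 * j + 1 = 2 * k := by exact_mod_cast h6
    omega
  have hτmem : p τ ∈ p '' Icc 0 τ := ⟨τ, right_mem_Icc.2 τ.2.1, rfl⟩
  have hS : IsPreconnected (p '' Icc 0 τ) :=
    isPreconnected_Icc.image _ p.continuous.continuousOn
  have hSpos : ∀ x ∈ p '' Icc 0 τ, 0 < (x : ℝ × ℝ).1 := by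
    rintro _ ⟨s, hs, rfl⟩
    exact hpos s hs
  have hmax0 : ∀ j : Fin (n + 1), 0 ≤ (2 * (j : ℝ) + 1) * Real.pi := fun j => by positivity
  have hexists : ∀ j : Fin (n + 1), ∃ s ∈ Icc 0 τ, p s = ⟨gam ((2 * (j : ℝ) + 1) * Real.pi), gam_mem (hmax0 j)⟩ := by
    intro j
    have hj : (j : ℝ) ≤ n := by exact_mod_cast Nat.lt_succ_iff.1 j.2
    have a1 : (⟨gam 0, gam_mem le_rfl⟩ : X) ∈ p '' Icc 0 τ :=
      ⟨0, left_mem_Icc.2 τ.2.1, p.source⟩
    have a2 : (⟨gam ((2 * (n : ℝ) + 1) * Real.pi), gam_mem hz0⟩ : X) ∈ p '' Icc 0 τ :=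
      ⟨τ, right_mem_Icc.2 τ.2.1, hτ⟩
    obtain ⟨s, hs, hs2⟩ := between hS hSpos le_rfl (hmax0 j) (by nlinarith) (hodd j) a1 a2
    exact ⟨s, hs, hs2⟩
  choose s hs hs2 using hexists
  -- each `s j` lies in one of the `n` pieces
  have hpiece : ∀ x : unitInterval, ∃ i : Fin n, x ∈ Icc (t i.castSucc) (t i.succ) := by
    intro x
    have hn0 : n ≠ 0 := by
      rintro rfl
      have : t 0 = t (Fin.last 0) := rfl
      rw [ht0, ht1] at this
      exact zero_ne_one this
    -- the last index with `t i ≤ x`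
    by_contra hcon
    push Not at hcon
    have hall : ∀ i : ℕ, ∀ hi : i < n + 1, t ⟨i, hi⟩ ≤ x := by
      intro i
      induction i with
      | zero => intro hi; rw [show (⟨0, hi⟩ : Fin (n + 1)) = 0 from rfl, ht0]; exact x.2.1
      | succ i ih =>
        intro hi
        have h8 := ih (by omega)
        have h9 := hcon ⟨i, by omega⟩
        by_contra h10
        push Not at h10
        exact h9 ⟨h8, h10.le⟩
    have hx1 : x = 1 := by
      have h11 := hall n (by omega)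
      rw [show (⟨n, by omega⟩ : Fin (n + 1)) = Fin.last n from rfl, ht1] at h11
      exact le_antisymm x.2.2 h11
    apply hcon ⟨n - 1, by omega⟩
    refine ⟨hall (n - 1) (by omega), ?_⟩
    rw [show (⟨n - 1, by omega⟩ : Fin n).succ = Fin.last n from by
      apply Fin.ext; simp only [Fin.val_succ, Fin.val_last]; omega, ht1]
    exact x.2.2
  choose f hf using hpiece
  obtain ⟨j, k, hjk, hfjk⟩ := Fintype.exists_ne_map_eq_of_card_lt (fun j : Fin (n + 1) => f (s j))
    (by simp)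
  -- we may assume `j < k`
  obtain ⟨j, k, hjk, hfjk⟩ : ∃ j k : Fin (n + 1), j < k ∧ f (s j) = f (s k) := by
    rcases lt_or_gt_of_ne hjk with hlt | hlt
    · exact ⟨j, k, hlt, hfjk⟩
    · exact ⟨k, j, hlt, hfjk.symm⟩
  set A : Set unitInterval := Icc 0 τ ∩ Icc (t (f (s j)).castSucc) (t (f (s j)).succ) with hA
  have hAc : A = Icc (max 0 (t (f (s j)).castSucc)) (min τ (t (f (s j)).succ)) := Icc_inter_Icc
  have hSA : IsPreconnected (p '' A) := by
    rw [hAc]
    exact isPreconnected_Icc.image _ p.continuous.continuousOn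
  have hApos : ∀ x ∈ p '' A, 0 < (x : ℝ × ℝ).1 := by
    rintro _ ⟨r, hr, rfl⟩
    exact hpos r hr.1
  have m1 : (⟨gam ((2 * (j : ℝ) + 1) * Real.pi), gam_mem (hmax0 j)⟩ : X) ∈ p '' A :=
    ⟨s j, ⟨hs j, hf (s j)⟩, hs2 j⟩
  have m2 : (⟨gam ((2 * (k : ℝ) + 1) * Real.pi), gam_mem (hmax0 k)⟩ : X) ∈ p '' A :=
    ⟨s k, ⟨hs k, by rw [hfjk]; exact hf (s k)⟩, hs2 k⟩
  have hjk' : (j : ℝ) + 1 ≤ k := by exact_mod_cast hjk
  -- a point of low height between the maxima
  have hw1 : (2 * (j : ℝ) + 1) * Real.pi ≤ 2 * Real.pi * (j + 1) - Real.pi / 3 := by nlinarith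
  have hw2 : 2 * Real.pi * ((j : ℝ) + 1) - Real.pi / 3 ≤ (2 * (k : ℝ) + 1) * Real.pi := by nlinarith
  have hw3 : ∀ i : ℕ, 2 * Real.pi * ((j : ℝ) + 1) - Real.pi / 3 ≠ 2 * Real.pi * i := by
    intro i he
    have h6 : 6 * ((j : ℝ) + 1) - 1 = 6 * i := by
      apply mul_right_cancel₀ (show Real.pi / 3 ≠ 0 by positivity)
      linarith
    have h7 : (6 : ℤ) * ((j : ℤ) + 1) - 1 = 6 * i := by exact_mod_cast h6
    omega
  have m3 := between hSA hApos (hmax0 j) hw1 hw2 hw3 m1 m2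
  have hdist := htd (f (s j))
  have hsub : p '' A ⊆ p '' Icc (t (f (s j)).castSucc) (t (f (s j)).succ) :=
    image_mono inter_subset_right
  have hbd : Bornology.IsBounded (p '' Icc (t (f (s j)).castSucc) (t (f (s j)).succ)) :=
    (isCompact_Icc.image p.continuous).isBounded
  have hd := Metric.dist_le_diam_of_mem hbd (hsub m1) (hsub m3)
  have hd2 : (3 / 4 : ℝ) ≤ dist (⟨gam ((2 * (j : ℝ) + 1) * Real.pi), gam_mem (hmax0 j)⟩ : X)
      ⟨gam (2 * Real.pi * ((j : ℝ) + 1) - Real.pi / 3), gam_mem ((hmax0 j).trans hw1)⟩ := by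
    rw [Subtype.dist_eq, Prod.dist_eq]
    refine le_trans ?_ (le_max_left _ _)
    show (3 / 4 : ℝ) ≤ dist (h _) (h _)
    have e1 : h ((2 * (j : ℝ) + 1) * Real.pi) = 2 := by
      unfold h
      rw [show (2 * (j : ℝ) + 1) * Real.pi = Real.pi + ((j : ℕ) : ℝ) * (2 * Real.pi) by ring,
        Real.cos_add_nat_mul_two_pi, Real.cos_pi]
      norm_num
    have e2 : h (2 * Real.pi * ((j : ℝ) + 1) - Real.pi / 3) = 5 / 4 := by
      unfold h
      rw [show 2 * Real.pi * ((j : ℝ) + 1) - Real.pi / 3 = -(Real.pi / 3) + (((j : ℕ) + 1 : ℕ) : ℝ) * (2 * Real.pi) by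
        push_cast; ring, Real.cos_add_nat_mul_two_pi, Real.cos_neg, Real.cos_pi_div_three]
      norm_num
    rw [e1, e2, Real.dist_eq]
    norm_num
  linarith

end Pool.Agent.NH80.Kup
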